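import Pool.Agent.Q54.ZR.Stm

/-!
Project ZR (helper54), job K3L (helper222).
-/

set_option autoImplicit false

namespace Pool.Agent.Q222.ZR

open Pool.Agent.Q54.ZR

/-- two copies of the pentagon colouring -/
def c10 (i j : Fin 10) : ZMod 3 :=
  if i.1 / 5 = j.1 / 5 then (if (i.1 + 10 - j.1) % 5 = 1 ∨ (i.1 + 10 - j.1) % 5 = 4 then 1 else 2) else 0

theorem k3l : S_K3L := by
  refine ⟨c10, ?_, ?_⟩
  · have h : ∀ x y : Fin 10, c10 x y = c10 y x := by decide +kernel
    exact h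
  · have h : ∀ x y z : Fin 10, x ≠ y → y ≠ z → x ≠ z → c10 x y + c10 y z + c10 x z ≠ 0 := by decide +kernel
    exact h

end Pool.Agent.Q222.ZR
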