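import Pool.Agent.Q54.ZR.Stm

/-!
Project ZR (helper54), job K3U (helper222).
-/

set_option autoImplicit false

namespace Pool.Agent.Q222.ZR.K3U

open Pool.Agent.Q54.ZR Finset

theorem col3 : ∀ i j k : ZMod 3, i ≠ j → i ≠ k → j ≠ k → (univ : Finset (ZMod 3)) = {i, j, k} := by decide

theorem other : ∀ i : ZMod 3, ∃ j k : ZMod 3, i ≠ j ∧ i ≠ k ∧ j ≠ k := by decide

theorem fa : ∀ a p : ZMod 3, a + p + a ≠ 0 → p ≠ a := by decide

set_option synthInstance.maxSize 2000 in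
theorem fb : ∀ a i p q r : ZMod 3, a ≠ i → p ≠ a → p ≠ i → q ≠ a → q ≠ i → r ≠ a → r ≠ i → p + q + r = 0 := by
  decide

section

variable {V : Type} [Fintype V] [DecidableEq V] {c : V → V → ZMod 3}

/-- neighbours of colour `i` -/
def N (c : V → V → ZMod 3) (i : ZMod 3) (v : V) : Finset V := univ.filter fun y => y ≠ v ∧ c v y = i

theorem mem_N (i : ZMod 3) (v y : V) : y ∈ N c i v ↔ y ≠ v ∧ c v y = i := by
  simp [N]

theorem card_N (hV : 11 ≤ Fintype.card V) (v : V) (i j k : ZMod 3) (hij : i ≠ j) (hik : i ≠ k) (hjk : j ≠ k) :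
    10 ≤ (N c i v).card + (N c j v).card + (N c k v).card := by
  have h1 : (univ.erase v).card = ∑ a : ZMod 3, ((univ.erase v).filter fun y => c v y = a).card :=
    Finset.card_eq_sum_card_fiberwise fun y _ => Finset.mem_coe.2 (mem_univ _)
  have h2 : ∀ a, (univ.erase v).filter (fun y => c v y = a) = N c a v := by
    intro a
    ext y
    simp [N]
  simp only [h2] at h1
  rw [col3 i j k hij hik hjk, Finset.sum_insert (by simp [hij, hik]), Finset.sum_insert (by simp [hjk]),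
    Finset.sum_singleton, card_erase_of_mem (mem_univ v), card_univ] at h1
  omega

variable (hc : IsSym c) (hno : ∀ x y z : V, x ≠ y → y ≠ z → x ≠ z → c x y + c y z + c x z ≠ 0)

include hc hno in
/-- a set which avoids a colour -/
theorem avoid (W : Finset V) (i : ZMod 3) (hW : ∀ x ∈ W, ∀ y ∈ W, x ≠ y → c x y ≠ i) : W.card ≤ 5 := by
  by_contra hcon
  obtain ⟨v, hv⟩ : W.Nonempty := by
    rw [← Finset.card_pos]
    omega
  obtain ⟨j, k, hij, hik, hjk⟩ := other i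
  have claim : ∀ a, a ≠ i → ((W.erase v).filter fun y => c v y = a).card ≤ 2 := by
    intro a ha
    by_contra h
    obtain ⟨y1, h1, y2, h2, y3, h3, h12, h13, h23⟩ := Finset.two_lt_card.1 (not_le.1 h)
    simp only [Finset.mem_filter, Finset.mem_erase] at h1 h2 h3
    obtain ⟨⟨v1, w1⟩, e1⟩ := h1
    obtain ⟨⟨v2, w2⟩, e2⟩ := h2
    obtain ⟨⟨v3, w3⟩, e3⟩ := h3
    have n12 := hno v y1 y2 v1.symm h12 v2.symm
    have n13 := hno v y1 y3 v1.symm h13 v3.symm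
    have n23 := hno v y2 y3 v2.symm h23 v3.symm
    rw [e1, e2] at n12
    rw [e1, e3] at n13
    rw [e2, e3] at n23
    exact hno y1 y2 y3 h12 h23 h13 (fb a i _ _ _ ha (fa _ _ n12) (hW y1 w1 y2 w2 h12) (fa _ _ n23)
      (hW y2 w2 y3 w3 h23) (fa _ _ n13) (hW y1 w1 y3 w3 h13))
  have hsub : W.erase v ⊆ ((W.erase v).filter fun y => c v y = j) ∪ ((W.erase v).filter fun y => c v y = k) := by
    intro y hy
    have hy' := Finset.mem_erase.1 hy
    have h1 : c v y ≠ i := hW v hv y hy'.2 hy'.1.symm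
    have h2 : c v y ∈ ({i, j, k} : Finset (ZMod 3)) := by rw [← col3 i j k hij hik hjk]; exact mem_univ _
    simp only [Finset.mem_insert, Finset.mem_singleton] at h2
    rw [Finset.mem_union, Finset.mem_filter, Finset.mem_filter]
    rcases h2 with h2 | h2 | h2
    · exact absurd h2 h1
    · exact Or.inl ⟨hy, h2⟩
    · exact Or.inr ⟨hy, h2⟩
  have h1 := Finset.card_le_card hsub
  have h2 := Finset.card_union_le ((W.erase v).filter fun y => c v y = j) ((W.erase v).filter fun y => c v y = k)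
  have h3 := claim j hij.symm
  have h4 := claim k hik.symm
  rw [card_erase_of_mem hv] at h1
  omega

theorem fc : ∀ i p : ZMod 3, i + p + i ≠ 0 → p ≠ i := by decide

include hno in
theorem inN {i : ZMod 3} {v x y : V} (hx : x ∈ N c i v) (hy : y ∈ N c i v) (hxy : x ≠ y) : c x y ≠ i := by
  rw [mem_N] at hx hy
  have h := hno v x y hx.1.symm hxy hy.1.symm
  rw [hx.2, hy.2] at h
  exact fc _ _ h

/-- the colours at the first vertex: two equal, one different -/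
theorem fd : ∀ i p q r s t u : ZMod 3, p ≠ i → q ≠ i → r ≠ i → s ≠ i → t ≠ i → u ≠ i →
    p + s + q ≠ 0 → p + t + r ≠ 0 → q + u + r ≠ 0 → s + u + t ≠ 0 →
    (p ≠ q ∧ q = r) ∨ (q ≠ p ∧ p = r) ∨ (r ≠ p ∧ p = q) := by decide +kernel

/-- the colours of a four element subset: `p = c x1 x2`, `q = c x1 x3 = c x1 x4` -/
theorem fe : ∀ i p q s t u : ZMod 3, p ≠ i → q ≠ i → s ≠ i → t ≠ i → u ≠ i → p ≠ q →
    p + s + q ≠ 0 → p + t + q ≠ 0 → q + u + q ≠ 0 → s + u + t ≠ 0 →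
    u = p ∧ ((s = q ∧ t = q) ∨ (s = p ∧ t = q) ∨ (s = q ∧ t = p)) := by decide +kernel

/-- structure of a four element subset -/
structure Four (c : V → V → ZMod 3) (i : ZMod 3) (x1 x2 x3 x4 : V) (j k : ZMod 3) : Prop where
  hij : i ≠ j
  hik : i ≠ k
  hjk : j ≠ k
  h12 : x1 ≠ x2
  h13 : x1 ≠ x3
  h14 : x1 ≠ x4
  h23 : x2 ≠ x3
  h24 : x2 ≠ x4
  h34 : x3 ≠ x4
  c12 : c x1 x2 = k
  c13 : c x1 x3 = j
  c14 : c x1 x4 = j
  c34 : c x3 x4 = k

include hc hno in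
theorem four' {i : ZMod 3} {v x1 x2 x3 x4 : V} (h1 : x1 ∈ N c i v) (h2 : x2 ∈ N c i v) (h3 : x3 ∈ N c i v)
    (h4 : x4 ∈ N c i v) (h12 : x1 ≠ x2) (h13 : x1 ≠ x3) (h14 : x1 ≠ x4) (h23 : x2 ≠ x3) (h24 : x2 ≠ x4)
    (h34 : x3 ≠ x4) (hpq : c x1 x2 ≠ c x1 x3) (hq : c x1 x3 = c x1 x4) :
    ∃ j k, Four c i x1 x2 x3 x4 j k ∧ ((c x2 x3 = j ∧ c x2 x4 = j) ∨ (c x2 x3 = k ∧ c x2 x4 = j) ∨
      (c x2 x3 = j ∧ c x2 x4 = k)) := by
  have n123 := hno x1 x2 x3 h12 h23 h13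
  have n124 := hno x1 x2 x4 h12 h24 h14
  have n134 := hno x1 x3 x4 h13 h34 h14
  have n234 := hno x2 x3 x4 h23 h34 h24
  have i12 := inN hno h1 h2 h12
  have i13 := inN hno h1 h3 h13
  have i14 := inN hno h1 h4 h14
  have i23 := inN hno h2 h3 h23
  have i24 := inN hno h2 h4 h24
  have i34 := inN hno h3 h4 h34
  rw [← hq] at n124 n134
  obtain ⟨e1, e2⟩ := fe i (c x1 x2) (c x1 x3) (c x2 x3) (c x2 x4) (c x3 x4) i12 i13 i23 i24 i34 hpq n123 n124 n134 n234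
  exact ⟨c x1 x3, c x1 x2, ⟨i13.symm, i12.symm, hpq.symm, h12, h13, h14, h23, h24, h34, rfl, rfl, hq.symm, e1⟩, e2⟩

include hc hno in
theorem four {i : ZMod 3} {v : V} {X : Finset V} (hX : X ⊆ N c i v) (hX4 : X.card = 4) :
    ∃ x1 x2 x3 x4 j k, X = {x1, x2, x3, x4} ∧ Four c i x1 x2 x3 x4 j k ∧ ((c x2 x3 = j ∧ c x2 x4 = j) ∨
      (c x2 x3 = k ∧ c x2 x4 = j)) := by
  -- the case distinction with the three orders
  have key : ∀ x1 x2 x3 x4 : V, x1 ∈ X → x2 ∈ X → x3 ∈ X → x4 ∈ X → x1 ≠ x2 → x1 ≠ x3 → x1 ≠ x4 → x2 ≠ x3 →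
      x2 ≠ x4 → x3 ≠ x4 → c x1 x2 ≠ c x1 x3 → c x1 x3 = c x1 x4 → ∃ x1 x2 x3 x4 j k, X = {x1, x2, x3, x4} ∧
        Four c i x1 x2 x3 x4 j k ∧ ((c x2 x3 = j ∧ c x2 x4 = j) ∨ (c x2 x3 = k ∧ c x2 x4 = j)) := by
    intro x1 x2 x3 x4 h1 h2 h3 h4 h12 h13 h14 h23 h24 h34 hpq hq
    have hXe : ∀ y1 y2 y3 y4 : V, y1 ∈ X → y2 ∈ X → y3 ∈ X → y4 ∈ X → y1 ≠ y2 → y1 ≠ y3 → y1 ≠ y4 → y2 ≠ y3 →
        y2 ≠ y4 → y3 ≠ y4 → X = {y1, y2, y3, y4} := by
      intro y1 y2 y3 y4 h1 h2 h3 h4 h12 h13 h14 h23 h24 h34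
      symm
      apply Finset.eq_of_subset_of_card_le
      · intro z hz
        simp only [Finset.mem_insert, Finset.mem_singleton] at hz
        rcases hz with rfl | rfl | rfl | rfl <;> assumption
      · rw [hX4, card_insert_of_notMem, card_insert_of_notMem, card_pair h34]
        · simp [h23, h24]
        · simp [h12, h13, h14]
    obtain ⟨j, k, hf, hh | hh | hh⟩ := four' hc hno (hX h1) (hX h2) (hX h3) (hX h4) h12 h13 h14 h23 h24 h34 hpq hq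
    · exact ⟨x1, x2, x3, x4, j, k, hXe x1 x2 x3 x4 h1 h2 h3 h4 h12 h13 h14 h23 h24 h34, hf, Or.inl hh⟩
    · exact ⟨x1, x2, x3, x4, j, k, hXe x1 x2 x3 x4 h1 h2 h3 h4 h12 h13 h14 h23 h24 h34, hf, Or.inr hh⟩
    · refine ⟨x1, x2, x4, x3, j, k, hXe x1 x2 x4 x3 h1 h2 h4 h3 h12 h14 h13 h24 h23 h34.symm, ?_, Or.inr ⟨hh.2, hh.1⟩⟩
      exact ⟨hf.hij, hf.hik, hf.hjk, h12, h14, h13, h24, h23, h34.symm, hf.c12, hf.c14, hf.c13, by rw [hc, hf.c34]⟩
  obtain ⟨y1, y2, y3, y4, h12, h13, h14, h23, h24, h34, hXe⟩ := Finset.card_eq_succ.1 hX4 |>.elim fun y1 h => by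
    obtain ⟨X3, h1, h2, h3⟩ := h
    obtain ⟨y2, y3, y4, h23, h24, h34, rfl⟩ := Finset.card_eq_three.1 h3
    simp only [Finset.mem_insert, Finset.mem_singleton, not_or] at h1
    exact (⟨y1, y2, y3, y4, h1.1, h1.2.1, h1.2.2, h23, h24, h34, h2.symm⟩ :
      ∃ y1 y2 y3 y4 : V, y1 ≠ y2 ∧ y1 ≠ y3 ∧ y1 ≠ y4 ∧ y2 ≠ y3 ∧ y2 ≠ y4 ∧ y3 ≠ y4 ∧ X = {y1, y2, y3, y4})
  have m1 : y1 ∈ X := by rw [hXe]; simp
  have m2 : y2 ∈ X := by rw [hXe]; simp
  have m3 : y3 ∈ X := by rw [hXe]; simp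
  have m4 : y4 ∈ X := by rw [hXe]; simp
  have hd := fd i (c y1 y2) (c y1 y3) (c y1 y4) (c y2 y3) (c y2 y4) (c y3 y4)
    (inN hno (hX m1) (hX m2) h12) (inN hno (hX m1) (hX m3) h13) (inN hno (hX m1) (hX m4) h14)
    (inN hno (hX m2) (hX m3) h23) (inN hno (hX m2) (hX m4) h24) (inN hno (hX m3) (hX m4) h34)
    (hno y1 y2 y3 h12 h23 h13) (hno y1 y2 y4 h12 h24 h14) (hno y1 y3 y4 h13 h34 h14) (hno y2 y3 y4 h23 h34 h24)
  rcases hd with ⟨g1, g2⟩ | ⟨g1, g2⟩ | ⟨g1, g2⟩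
  · exact key y1 y2 y3 y4 m1 m2 m3 m4 h12 h13 h14 h23 h24 h34 g1 g2
  · exact key y1 y3 y2 y4 m1 m3 m2 m4 h13 h12 h14 h23.symm h34 h24 g1 g2
  · exact key y1 y4 y2 y3 m1 m4 m2 m3 h14 h12 h13 h24.symm h34.symm h23 g1 g2

set_option synthInstance.maxSize 2000 in
/-- type A -/
theorem fA : ∀ i j k m a1 a2 a3 a4 : ZMod 3, i ≠ j → i ≠ k → j ≠ k → m ≠ i →
    i + a1 + m ≠ 0 → i + a2 + m ≠ 0 → i + a3 + m ≠ 0 → i + a4 + m ≠ 0 →
    k + a2 + a1 ≠ 0 → j + a3 + a1 ≠ 0 → j + a4 + a1 ≠ 0 → k + a3 + a2 ≠ 0 → j + a4 + a2 ≠ 0 → k + a4 + a3 ≠ 0 →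
    a1 = i := by decide +kernel

set_option synthInstance.maxSize 2000 in
/-- type B, a vertex outside -/
theorem fB : ∀ i j k m a1 a2 a3 a4 : ZMod 3, i ≠ j → i ≠ k → j ≠ k → m ≠ i →
    i + a1 + m ≠ 0 → i + a2 + m ≠ 0 → i + a3 + m ≠ 0 → i + a4 + m ≠ 0 →
    k + a2 + a1 ≠ 0 → j + a3 + a1 ≠ 0 → j + a4 + a1 ≠ 0 → j + a3 + a2 ≠ 0 → j + a4 + a2 ≠ 0 → k + a4 + a3 ≠ 0 →
    a1 ≠ k := by decide +kernel

set_option synthInstance.maxSize 2000 in
/-- type B, a fifth vertex in the neighbourhood -/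
theorem fC : ∀ i j k a1 a2 a3 a4 : ZMod 3, i ≠ j → i ≠ k → j ≠ k →
    a1 ≠ i → a2 ≠ i → a3 ≠ i → a4 ≠ i →
    k + a2 + a1 ≠ 0 → j + a3 + a1 ≠ 0 → j + a4 + a1 ≠ 0 → j + a3 + a2 ≠ 0 → j + a4 + a2 ≠ 0 → k + a4 + a3 ≠ 0 →
    False := by decide +kernel

include hc hno in
/-- only type B occurs -/
theorem typeB (hV : 11 ≤ Fintype.card V) {i : ZMod 3} {v : V} {X : Finset V} (hX : X ⊆ N c i v) (hX4 : X.card = 4) :
    ∃ x1 x2 x3 x4 j k, X = {x1, x2, x3, x4} ∧ Four c i x1 x2 x3 x4 j k ∧ c x2 x3 = j ∧ c x2 x4 = j := by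
  obtain ⟨x1, x2, x3, x4, j, k, hXe, hf, ⟨hh1, hh2⟩ | ⟨hh1, hh2⟩⟩ := four hc hno hX hX4
  · exact ⟨x1, x2, x3, x4, j, k, hXe, hf, hh1, hh2⟩
  exfalso
  have m1 : x1 ∈ N c i v := hX (by rw [hXe]; simp)
  have m2 : x2 ∈ N c i v := hX (by rw [hXe]; simp)
  have m3 : x3 ∈ N c i v := hX (by rw [hXe]; simp)
  have m4 : x4 ∈ N c i v := hX (by rw [hXe]; simp)
  have hN5 : (N c i v).card ≤ 5 := avoid hc hno _ i fun x hx y hy hxy => inN hno hx hy hxy
  have hnot : ∀ y, y ∉ N c i v → ∀ x, x ∈ N c i v → x ≠ y := by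
    rintro y hy x hx rfl
    exact hy hx
  have hi : ∀ y, y ∉ N c i v → c x1 y = i := by
    intro y hy
    by_cases hyv : y = v
    · rw [hyv, hc, ((mem_N _ _ _).1 m1).2]
    · have hm : c v y ≠ i := fun h => hy ((mem_N _ _ _).2 ⟨hyv, h⟩)
      have n1 := hno v x1 y ((mem_N _ _ _).1 m1).1.symm (hnot y hy x1 m1) (Ne.symm hyv)
      have n2 := hno v x2 y ((mem_N _ _ _).1 m2).1.symm (hnot y hy x2 m2) (Ne.symm hyv)
      have n3 := hno v x3 y ((mem_N _ _ _).1 m3).1.symm (hnot y hy x3 m3) (Ne.symm hyv)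
      have n4 := hno v x4 y ((mem_N _ _ _).1 m4).1.symm (hnot y hy x4 m4) (Ne.symm hyv)
      rw [((mem_N _ _ _).1 m1).2] at n1
      rw [((mem_N _ _ _).1 m2).2] at n2
      rw [((mem_N _ _ _).1 m3).2] at n3
      rw [((mem_N _ _ _).1 m4).2] at n4
      have n12 := hno x1 x2 y hf.h12 (hnot y hy x2 m2) (hnot y hy x1 m1)
      have n13 := hno x1 x3 y hf.h13 (hnot y hy x3 m3) (hnot y hy x1 m1)
      have n14 := hno x1 x4 y hf.h14 (hnot y hy x4 m4) (hnot y hy x1 m1)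
      have n23 := hno x2 x3 y hf.h23 (hnot y hy x3 m3) (hnot y hy x2 m2)
      have n24 := hno x2 x4 y hf.h24 (hnot y hy x4 m4) (hnot y hy x2 m2)
      have n34 := hno x3 x4 y hf.h34 (hnot y hy x4 m4) (hnot y hy x3 m3)
      rw [hf.c12] at n12
      rw [hf.c13] at n13
      rw [hf.c14] at n14
      rw [hh1] at n23
      rw [hh2] at n24
      rw [hf.c34] at n34
      exact fA i j k (c v y) (c x1 y) (c x2 y) (c x3 y) (c x4 y) hf.hij hf.hik hf.hjk hm n1 n2 n3 n4 n12 n13 n14 n23 n24 n34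
  have hW := avoid hc hno ((N c i v)ᶜ) i (by
    intro y hy y' hy' hyy
    rw [mem_compl] at hy hy'
    have h1 := hno x1 y y' (hnot y hy x1 m1) hyy (hnot y' hy' x1 m1)
    rw [hi y hy, hi y' hy'] at h1
    exact fc _ _ h1)
  rw [card_compl] at hW
  omega

include hc hno in
theorem le4 (hV : 11 ≤ Fintype.card V) (i : ZMod 3) (v : V) : (N c i v).card ≤ 4 := by
  by_contra hcon
  obtain ⟨X, hX, hX4⟩ := Finset.exists_subset_card_eq (show 4 ≤ (N c i v).card by omega)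
  obtain ⟨x1, x2, x3, x4, j, k, hXe, hf, hh1, hh2⟩ := typeB hc hno hV hX hX4
  have h5 : ∃ y ∈ N c i v, y ∉ X := by
    by_contra h
    push Not at h
    have := Finset.card_le_card (show N c i v ⊆ X from h)
    omega
  obtain ⟨y, hy, hyX⟩ := h5
  have m1 : x1 ∈ N c i v := hX (by rw [hXe]; simp)
  have m2 : x2 ∈ N c i v := hX (by rw [hXe]; simp)
  have m3 : x3 ∈ N c i v := hX (by rw [hXe]; simp)
  have m4 : x4 ∈ N c i v := hX (by rw [hXe]; simp)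
  rw [hXe] at hyX
  simp only [Finset.mem_insert, Finset.mem_singleton, not_or] at hyX
  obtain ⟨y1, y2, y3, y4⟩ := hyX
  have n12 := hno x1 x2 y hf.h12 (Ne.symm y2) (Ne.symm y1)
  have n13 := hno x1 x3 y hf.h13 (Ne.symm y3) (Ne.symm y1)
  have n14 := hno x1 x4 y hf.h14 (Ne.symm y4) (Ne.symm y1)
  have n23 := hno x2 x3 y hf.h23 (Ne.symm y3) (Ne.symm y2)
  have n24 := hno x2 x4 y hf.h24 (Ne.symm y4) (Ne.symm y2)
  have n34 := hno x3 x4 y hf.h34 (Ne.symm y4) (Ne.symm y3)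
  rw [hf.c12] at n12
  rw [hf.c13] at n13
  rw [hf.c14] at n14
  rw [hh1] at n23
  rw [hh2] at n24
  rw [hf.c34] at n34
  exact fC i j k (c x1 y) (c x2 y) (c x3 y) (c x4 y) hf.hij hf.hik hf.hjk (inN hno m1 hy (Ne.symm y1))
    (inN hno m2 hy (Ne.symm y2)) (inN hno m3 hy (Ne.symm y3)) (inN hno m4 hy (Ne.symm y4)) n12 n13 n14 n23 n24 n34

include hc hno in
theorem contra (hV : 11 ≤ Fintype.card V) : False := by
  have hne : Nonempty V := Fintype.card_pos_iff.1 (by omega)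
  obtain ⟨v⟩ := hne
  obtain ⟨i, hi⟩ : ∃ i, 4 ≤ (N c i v).card := by
    by_contra h
    push Not at h
    have h1 := card_N (c := c) hV v 0 1 2 (by decide) (by decide) (by decide)
    have h2 := h 0
    have h3 := h 1
    have h4 := h 2
    omega
  have hi4 : (N c i v).card = 4 := le_antisymm (le4 hc hno hV i v) hi
  obtain ⟨x1, x2, x3, x4, j, k, hXe, hf, hh1, hh2⟩ := typeB hc hno hV (Finset.Subset.refl (N c i v)) hi4
  have m1 : x1 ∈ N c i v := by rw [hXe]; simp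
  have m2 : x2 ∈ N c i v := by rw [hXe]; simp
  have m3 : x3 ∈ N c i v := by rw [hXe]; simp
  have m4 : x4 ∈ N c i v := by rw [hXe]; simp
  have hnot : ∀ y, y ∉ N c i v → ∀ x, x ∈ N c i v → x ≠ y := by
    rintro y hy x hx rfl
    exact hy hx
  have hk1 : N c k x1 ⊆ {x2} := by
    intro y hy
    rw [mem_N] at hy
    obtain ⟨hyx, hyk⟩ := hy
    rw [Finset.mem_singleton]
    by_contra hy2
    by_cases hyv : y = v
    · rw [hyv, hc, ((mem_N _ _ _).1 m1).2] at hyk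
      exact hf.hik hyk
    · by_cases hyN : y ∈ N c i v
      · rw [hXe] at hyN
        simp only [Finset.mem_insert, Finset.mem_singleton] at hyN
        rcases hyN with h | h | h | h
        · exact hyx h
        · exact hy2 h
        · rw [h, hf.c13] at hyk
          exact hf.hjk hyk
        · rw [h, hf.c14] at hyk
          exact hf.hjk hyk
      · have hm : c v y ≠ i := fun h => hyN ((mem_N _ _ _).2 ⟨hyv, h⟩)
        have n1 := hno v x1 y ((mem_N _ _ _).1 m1).1.symm (hnot y hyN x1 m1) (Ne.symm hyv)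
        have n2 := hno v x2 y ((mem_N _ _ _).1 m2).1.symm (hnot y hyN x2 m2) (Ne.symm hyv)
        have n3 := hno v x3 y ((mem_N _ _ _).1 m3).1.symm (hnot y hyN x3 m3) (Ne.symm hyv)
        have n4 := hno v x4 y ((mem_N _ _ _).1 m4).1.symm (hnot y hyN x4 m4) (Ne.symm hyv)
        rw [((mem_N _ _ _).1 m1).2] at n1
        rw [((mem_N _ _ _).1 m2).2] at n2
        rw [((mem_N _ _ _).1 m3).2] at n3
        rw [((mem_N _ _ _).1 m4).2] at n4
        have n12 := hno x1 x2 y hf.h12 (hnot y hyN x2 m2) (hnot y hyN x1 m1)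
        have n13 := hno x1 x3 y hf.h13 (hnot y hyN x3 m3) (hnot y hyN x1 m1)
        have n14 := hno x1 x4 y hf.h14 (hnot y hyN x4 m4) (hnot y hyN x1 m1)
        have n23 := hno x2 x3 y hf.h23 (hnot y hyN x3 m3) (hnot y hyN x2 m2)
        have n24 := hno x2 x4 y hf.h24 (hnot y hyN x4 m4) (hnot y hyN x2 m2)
        have n34 := hno x3 x4 y hf.h34 (hnot y hyN x4 m4) (hnot y hyN x3 m3)
        rw [hf.c12] at n12
        rw [hf.c13] at n13
        rw [hf.c14] at n14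
        rw [hh1] at n23
        rw [hh2] at n24
        rw [hf.c34] at n34
        exact fB i j k (c v y) (c x1 y) (c x2 y) (c x3 y) (c x4 y) hf.hij hf.hik hf.hjk hm n1 n2 n3 n4 n12 n13 n14 n23
          n24 n34 hyk
  have h1 := Finset.card_le_card hk1
  rw [card_singleton] at h1
  have h2 := card_N (c := c) hV x1 i j k hf.hij hf.hik hf.hjk
  have h3 := le4 hc hno hV i x1
  have h4 := le4 hc hno hV j x1
  omega

end

theorem k3u : S_K3U := by
  intro V _ _ c hc hV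
  by_contra hcon
  refine contra hc (fun x y z hxy hyz hxz h => hcon ⟨x, y, z, hxy, hyz, hxz, h⟩) hV

end Pool.Agent.Q222.ZR.K3U

namespace Pool.Agent.Q222.ZR

open Pool.Agent.Q54.ZR

theorem k3u : S_K3U := K3U.k3u

end Pool.Agent.Q222.ZR
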