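import Pool.Agent.Q54.ZR.Stm

/-!
Project ZR (helper54), job KC (helper222).
-/

set_option autoImplicit false

namespace Pool.Agent.Q222.ZR.KC

open Pool.Agent.Q54.ZR Finset

/-- the hypothesis -/
def Hyp {V : Type} (n : ℕ) (U : Finset V) (g1 g2 : V → ZMod 3) (k1 k2 : ZMod 3) : Prop :=
  ∀ B : Finset V, B ⊆ U → B.card + 2 = n → (k1 + ∑ y ∈ B, g1 y = 0 ↔ k2 + ∑ y ∈ B, g2 y = 0)

theorem hyp_symm {V : Type} {n : ℕ} {U : Finset V} {g1 g2 : V → ZMod 3} {k1 k2 : ZMod 3}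
    (h : Hyp n U g1 g2 k1 k2) : Hyp n U g2 g1 k2 k1 := fun B hB hn => (h B hB hn).symm

section

variable {V : Type} [DecidableEq V] {n : ℕ} {U : Finset V} {g1 g2 : V → ZMod 3} {k1 k2 : ZMod 3}

theorem pairB (h : Hyp n U g1 g2 k1 k2) {B : Finset V} (hB : B ⊆ U) (hBn : B.card + 4 = n) {x x' : V}
    (hx : x ∈ U) (hx' : x' ∈ U) (hxx : x ≠ x') (hxB : x ∉ B) (hxB' : x' ∉ B) :
    (k1 + (g1 x + (g1 x' + ∑ y ∈ B, g1 y)) = 0 ↔ k2 + (g2 x + (g2 x' + ∑ y ∈ B, g2 y)) = 0) := by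
  have h1 : x ∉ insert x' B := by
    rw [mem_insert, not_or]
    exact ⟨hxx, hxB⟩
  have h2 := h (insert x (insert x' B)) (by
    intro z hz
    rw [mem_insert, mem_insert] at hz
    rcases hz with rfl | rfl | hz
    · exact hx
    · exact hx'
    · exact hB hz) (by
    rw [card_insert_of_notMem h1, card_insert_of_notMem hxB']
    omega)
  rwa [sum_insert h1, sum_insert hxB', sum_insert h1, sum_insert hxB'] at h2

theorem exists_B (s : Finset V) (hsU : s ⊆ U) (hn : 4 ≤ n) (h : n + s.card ≤ U.card + 4) :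
    ∃ B : Finset V, B ⊆ U ∧ B.card + 4 = n ∧ ∀ x ∈ s, x ∉ B := by
  obtain ⟨B, hB, hBc⟩ := Finset.exists_subset_card_eq (show n - 4 ≤ (U \ s).card by
    rw [card_sdiff_of_subset hsU]
    omega)
  refine ⟨B, fun x hx => (mem_sdiff.1 (hB hx)).1, by omega, fun x hx hxB => ?_⟩
  exact (mem_sdiff.1 (hB hxB)).2 hx

set_option synthInstance.maxSize 2000 in
theorem f1 : ∀ k s u u' e e' : ZMod 3, u ≠ u' → k + (u + (e + s)) ≠ 0 → k + (u' + (e + s)) ≠ 0 →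
    k + (u + (e' + s)) ≠ 0 → k + (u' + (e' + s)) ≠ 0 → e = e' := by decide +kernel

theorem f1' : ∀ k s u u' e : ZMod 3, k + (u + (e + s)) = 0 → k + (u' + (e + s)) = 0 → u = u' := by decide +kernel

theorem LA (hn : 4 ≤ n) (hU : U.card = n + 3) (h : Hyp n U g1 g2 k1 k2) {y y' : V} (hy : y ∈ U) (hy' : y' ∈ U)
    (hyy : y ≠ y') (e1 : g1 y = g1 y') (e2 : g2 y ≠ g2 y') {e e' : V} (he : e ∈ U) (he' : e' ∈ U)
    (h1 : e ≠ y) (h2 : e ≠ y') (h3 : e' ≠ y) (h4 : e' ≠ y') : g2 e = g2 e' := by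
  by_cases hee : e = e'
  · rw [hee]
  obtain ⟨B, hB, hBn, hBs⟩ := exists_B (n := n) (U := U) ({y, y', e, e'} : Finset V) (by
    intro z hz
    simp only [mem_insert, mem_singleton] at hz
    rcases hz with rfl | rfl | rfl | rfl <;> assumption) hn (by
    have : ({y, y', e, e'} : Finset V).card ≤ 4 := card_le_four
    omega)
  have by1 := hBs y (by simp)
  have by2 := hBs y' (by simp)
  have be1 := hBs e (by simp)
  have be2 := hBs e' (by simp)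
  have a1 := pairB h hB hBn hy he h1.symm by1 be1
  have a2 := pairB h hB hBn hy' he h2.symm by2 be1
  have a3 := pairB h hB hBn hy he' h3.symm by1 be2
  have a4 := pairB h hB hBn hy' he' h4.symm by2 be2
  rw [← e1] at a2 a4
  have b1 := a1.symm.trans a2
  have b3 := a3.symm.trans a4
  have c1 : k2 + (g2 y + (g2 e + ∑ z ∈ B, g2 z)) ≠ 0 := fun hh => e2 (f1' _ _ _ _ _ hh (b1.1 hh))
  have c2 : k2 + (g2 y' + (g2 e + ∑ z ∈ B, g2 z)) ≠ 0 := fun hh => e2 (f1' _ _ _ _ _ (b1.2 hh) hh)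
  have c3 : k2 + (g2 y + (g2 e' + ∑ z ∈ B, g2 z)) ≠ 0 := fun hh => e2 (f1' _ _ _ _ _ hh (b3.1 hh))
  have c4 : k2 + (g2 y' + (g2 e' + ∑ z ∈ B, g2 z)) ≠ 0 := fun hh => e2 (f1' _ _ _ _ _ (b3.2 hh) hh)
  exact f1 _ _ _ _ _ _ e2 c1 c2 c3 c4

set_option synthInstance.maxSize 2000 in
theorem f2 : ∀ k s p p' q : ZMod 3, p ≠ p' → p ≠ q → p' ≠ q → k + (p + (q + s)) ≠ 0 → k + (p' + (q + s)) ≠ 0 →
    k + (q + (q + s)) = 0 ∧ k + (p + (p' + s)) = 0 := by decide +kernel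

theorem f3 : ∀ k s g a1 a2 a3 : ZMod 3, k + (a1 + (a2 + s)) = 0 → k + (a1 + (a3 + s)) = 0 →
    k + (a2 + (a3 + s)) = 0 → k + (g + (g + s)) = 0 → a1 = g := by decide +kernel

theorem C2 (hn : 4 ≤ n) (hU : U.card = n + 3) (h : Hyp n U g1 g2 k1 k2) {y y' : V} (hy : y ∈ U) (hy' : y' ∈ U)
    (e1 : g1 y = g1 y') (e2 : g2 y ≠ g2 y') : ∃ p ∈ U, ∃ q : ZMod 3, ∀ y ∈ U.erase p, g2 y = q := by
  have hyy : y ≠ y' := by
    rintro rfl
    exact e2 rfl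
  have hZ : (U \ {y, y'}).card = n + 1 := by
    rw [card_sdiff_of_subset, hU, card_pair hyy]
    · omega
    · intro z hz
      simp only [mem_insert, mem_singleton] at hz
      rcases hz with rfl | rfl <;> assumption
  obtain ⟨o1, ho1, o2, ho2, o3, ho3, h12, h13, h23⟩ := Finset.two_lt_card.1 (show 2 < (U \ {y, y'}).card by omega)
  simp only [mem_sdiff, mem_insert, mem_singleton, not_or] at ho1 ho2 ho3
  obtain ⟨u1, v1, w1⟩ := ho1
  obtain ⟨u2, v2, w2⟩ := ho2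
  obtain ⟨u3, v3, w3⟩ := ho3
  have hq : ∀ o ∈ U, o ≠ y → o ≠ y' → g2 o = g2 o1 := by
    intro o ho h1 h2
    exact LA hn hU h hy hy' hyy e1 e2 ho u1 h1 h2 v1 w1
  by_cases hqy : g2 y = g2 o1
  · refine ⟨y', hy', g2 o1, fun z hz => ?_⟩
    rw [mem_erase] at hz
    by_cases hzy : z = y
    · rw [hzy, hqy]
    · exact hq z hz.2 hzy hz.1
  by_cases hqy' : g2 y' = g2 o1
  · refine ⟨y, hy, g2 o1, fun z hz => ?_⟩
    rw [mem_erase] at hz
    by_cases hzy : z = y'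
    · rw [hzy, hqy']
    · exact hq z hz.2 hz.1 hzy
  exfalso
  have hg1 : g1 o1 ≠ g1 y := by
    intro hh
    have := LA hn hU h hy u1 (Ne.symm v1) hh.symm hqy hy' u2 hyy.symm (Ne.symm w1) v2 h12.symm
    rw [hq o2 u2 v2 w2] at this
    exact hqy' this
  obtain ⟨B, hB, hBn, hBs⟩ := exists_B (n := n) (U := U) ({y, y', o1, o2, o3} : Finset V) (by
    intro z hz
    simp only [mem_insert, mem_singleton] at hz
    rcases hz with rfl | rfl | rfl | rfl | rfl <;> assumption) hn (by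
    have : ({y, y', o1, o2, o3} : Finset V).card ≤ 5 := card_le_five
    omega)
  have by1 := hBs y (by simp)
  have by2 := hBs y' (by simp)
  have b1 := hBs o1 (by simp)
  have b2 := hBs o2 (by simp)
  have b3 := hBs o3 (by simp)
  have a1 := pairB h hB hBn hy u2 (Ne.symm v2) by1 b2
  have a2 := pairB h hB hBn hy' u2 (Ne.symm w2) by2 b2
  rw [← e1] at a2
  rw [hq o2 u2 v2 w2] at a1 a2
  have c := a1.symm.trans a2
  have c1 : k2 + (g2 y + (g2 o1 + ∑ z ∈ B, g2 z)) ≠ 0 := fun hh => e2 (f1' _ _ _ _ _ hh (c.1 hh))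
  have c2 : k2 + (g2 y' + (g2 o1 + ∑ z ∈ B, g2 z)) ≠ 0 := fun hh => e2 (f1' _ _ _ _ _ (c.2 hh) hh)
  obtain ⟨d1, d2⟩ := f2 _ _ _ _ _ e2 hqy hqy' c1 c2
  have p12 := pairB h hB hBn u1 u2 h12 b1 b2
  have p13 := pairB h hB hBn u1 u3 h13 b1 b3
  have p23 := pairB h hB hBn u2 u3 h23 b2 b3
  have pyy := pairB h hB hBn hy hy' hyy by1 by2
  rw [hq o2 u2 v2 w2] at p12 p23
  rw [hq o3 u3 v3 w3] at p13 p23
  rw [← e1] at pyy
  exact hg1 (f3 _ _ _ _ _ _ (p12.2 d1) (p13.2 d1) (p23.2 d1) (pyy.2 d2))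

theorem f4 : ∀ a0 a1 a b0 b1 b : ZMod 3, a0 ≠ a1 → (a0 = a1 ↔ b0 = b1) → (a0 = a ↔ b0 = b) → (a1 = a ↔ b1 = b) →
    (b1 - b0) * (a1 - a0) ≠ 0 ∧ b = (b1 - b0) * (a1 - a0) * a + (b0 - (b1 - b0) * (a1 - a0) * a0) := by decide +kernel

end

theorem kc : S_KC := by
  intro V _ n U g1 g2 k1 k2 hn hU h
  by_cases hc : ∀ y ∈ U, ∀ y' ∈ U, (g1 y = g1 y' ↔ g2 y = g2 y')
  · right
    by_cases hconst : ∀ y ∈ U, ∀ y' ∈ U, g1 y = g1 y'
    · obtain ⟨y0, hy0⟩ : U.Nonempty := by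
        rw [← card_pos]
        omega
      refine ⟨1, g2 y0 - g1 y0, one_ne_zero, fun y hy => ?_⟩
      rw [(hc y hy y0 hy0).1 (hconst y hy y0 hy0), hconst y hy y0 hy0]
      ring
    · push Not at hconst
      obtain ⟨y0, hy0, y1, hy1, hne⟩ := hconst
      have h0 := (f4 _ _ _ _ _ _ hne (hc y0 hy0 y1 hy1) (hc y0 hy0 y0 hy0) (hc y1 hy1 y0 hy0)).1
      refine ⟨(g2 y1 - g2 y0) * (g1 y1 - g1 y0), g2 y0 - (g2 y1 - g2 y0) * (g1 y1 - g1 y0) * g1 y0, h0, fun y hy => ?_⟩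
      exact (f4 _ _ _ _ _ _ hne (hc y0 hy0 y1 hy1) (hc y0 hy0 y hy) (hc y1 hy1 y hy)).2
  · left
    push Not at hc
    obtain ⟨y, hy, y', hy', hh⟩ := hc
    rcases hh with ⟨h1, h2⟩ | ⟨h1, h2⟩
    · obtain ⟨p, hp, q, hq⟩ := C2 hn hU h hy hy' h1 h2
      exact ⟨p, hp, q, Or.inr hq⟩
    · obtain ⟨p, hp, q, hq⟩ := C2 hn hU (hyp_symm h) hy hy' h2 h1
      exact ⟨p, hp, q, Or.inl hq⟩

end Pool.Agent.Q222.ZR.KC

namespace Pool.Agent.Q222.ZR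

open Pool.Agent.Q54.ZR

theorem kc : S_KC := KC.kc

end Pool.Agent.Q222.ZR
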