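import Pool.Agent.Q54.ZR.Stm

/-!
Project ZR (helper54), job KR (helper222).
-/

set_option autoImplicit false

namespace Pool.Agent.Q222.ZR.KR

open Pool.Agent.Q54.ZR Finset

section

variable {V : Type} [DecidableEq V] {c : V → V → ZMod 3} {n : ℕ} {U : Finset V} {h g : V → ZMod 3} {l : ZMod 3}

theorem m2 : (-2 : ZMod 3) = 1 := by decide

/-- the weight for a rank one colouring -/
theorem form (hFI : S_FI) (hc : IsSym c) (hcU : ∀ x ∈ U, ∀ y ∈ U, x ≠ y → c x y = h x + h y + l * g x * g y)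
    (s : Finset V) (hs : s ⊆ U) :
    F c s = ((s.card : ZMod 3) - 1) * ∑ y ∈ s, h y - l * (∑ y ∈ s, g y) ^ 2 + l * ∑ y ∈ s, (g y) ^ 2 := by
  induction s using Finset.induction_on with
  | empty => simp [F]
  | insert x s hx ih =>
    have hsU : s ⊆ U := fun y hy => hs (mem_insert_of_mem hy)
    have hxU : x ∈ U := hs (mem_insert_self _ _)
    rw [hFI V c s x hc hx, ih hsU, sum_insert hx, sum_insert hx, sum_insert hx, card_insert_of_notMem hx]
    have h1 : ∑ y ∈ s, c x y = (s.card : ZMod 3) * h x + ∑ y ∈ s, h y + l * g x * ∑ y ∈ s, g y := by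
      rw [mul_sum, ← nsmul_eq_mul, ← sum_const, ← sum_add_distrib, ← sum_add_distrib]
      apply sum_congr rfl
      intro y hy
      apply hcU x hxU y (hsU hy)
      rintro rfl
      exact hx hy
    rw [h1]
    push_cast
    have h2 : l * g x * ∑ y ∈ s, g y = (-2) * (l * g x * ∑ y ∈ s, g y) := by rw [m2, one_mul]
    rw [h2]
    ring

/-- the linear part of the weight -/
def mm (n : ℕ) (h g : V → ZMod 3) (l : ZMod 3) (y : V) : ZMod 3 := ((n : ZMod 3) - 1) * h y + l * (g y) ^ 2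

theorem form2 (hFI : S_FI) (hc : IsSym c) (hcU : ∀ x ∈ U, ∀ y ∈ U, x ≠ y → c x y = h x + h y + l * g x * g y)
    (s : Finset V) (hs : s ⊆ U) (hsn : s.card = n) :
    F c s = - l * (∑ y ∈ s, g y) ^ 2 + ∑ y ∈ s, mm n h g l y := by
  rw [form hFI hc hcU s hs, hsn]
  unfold mm
  rw [sum_add_distrib, ← mul_sum, ← mul_sum]
  ring

set_option synthInstance.maxSize 4000 in
theorem fin9 : ∀ l G M μ1 μ2 μ3 δ1 δ2 δ3 : ZMod 3, l ≠ 0 → δ1 ≠ 0 → δ2 ≠ 0 → δ3 ≠ 0 →
    - l * G ^ 2 + M ≠ 0 → - l * (G + δ1) ^ 2 + (M + μ1) ≠ 0 → - l * (G + δ2) ^ 2 + (M + μ2) ≠ 0 →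
    - l * (G + δ3) ^ 2 + (M + μ3) ≠ 0 → - l * (G + δ1 + δ2) ^ 2 + (M + μ1 + μ2) ≠ 0 →
    - l * (G + δ1 + δ3) ^ 2 + (M + μ1 + μ3) ≠ 0 → - l * (G + δ2 + δ3) ^ 2 + (M + μ2 + μ3) ≠ 0 →
    - l * (G + δ1 + δ2 + δ3) ^ 2 + (M + μ1 + μ2 + μ3) ≠ 0 → μ1 * δ1 = μ2 * δ2 ∧ μ2 * δ2 = μ3 * δ3 := by
  decide +kernel

/-- the slope of a pair -/
def sl (n : ℕ) (h g : V → ZMod 3) (l : ZMod 3) (x x' : V) : ZMod 3 :=
  (mm n h g l x' - mm n h g l x) * (g x' - g x)

theorem tool (hFI : S_FI) (hc : IsSym c) (hcU : ∀ x ∈ U, ∀ y ∈ U, x ≠ y → c x y = h x + h y + l * g x * g y)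
    (hU : U.card = n + 3) (hl : l ≠ 0) (hNZ : ∀ s : Finset V, s ⊆ U → s.card = n → F c s ≠ 0)
    {x1 x2 x3 x1' x2' x3' : V} (m1 : x1 ∈ U) (m2 : x2 ∈ U) (m3 : x3 ∈ U) (m1' : x1' ∈ U) (m2' : x2' ∈ U)
    (m3' : x3' ∈ U) (hnd : [x1, x2, x3, x1', x2', x3'].Nodup) (g1 : g x1 ≠ g x1') (g2 : g x2 ≠ g x2')
    (g3 : g x3 ≠ g x3') : sl n h g l x1 x1' = sl n h g l x2 x2' ∧ sl n h g l x2 x2' = sl n h g l x3 x3' := by
  obtain ⟨B, hBdef⟩ : ∃ B, B = U \ {x1, x2, x3, x1', x2', x3'} := ⟨_, rfl⟩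
  have hB : B ⊆ U := hBdef ▸ sdiff_subset
  have hBn : B.card + 3 = n := by
    have h1 : ({x1, x2, x3, x1', x2', x3'} : Finset V).card = 6 := by
      have h2 : ({x1, x2, x3, x1', x2', x3'} : Finset V) = [x1, x2, x3, x1', x2', x3'].toFinset := by
        simp
      rw [h2, List.toFinset_card_of_nodup hnd]
      rfl
    have h3 : ({x1, x2, x3, x1', x2', x3'} : Finset V) ⊆ U := by
      intro z hz
      simp only [mem_insert, mem_singleton] at hz
      rcases hz with rfl | rfl | rfl | rfl | rfl | rfl <;> assumption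
    have h4 := card_le_card h3
    rw [hBdef, card_sdiff_of_subset h3, h1, hU]
    rw [h1, hU] at h4
    omega
  have hnB : ∀ z ∈ ({x1, x2, x3, x1', x2', x3'} : Finset V), z ∉ B := by
    intro z hz hzB
    rw [hBdef] at hzB
    exact (mem_sdiff.1 hzB).2 hz
  have b1 := hnB x1 (by simp)
  have b2 := hnB x2 (by simp)
  have b3 := hnB x3 (by simp)
  have b1' := hnB x1' (by simp)
  have b2' := hnB x2' (by simp)
  have b3' := hnB x3' (by simp)
  simp only [List.nodup_cons, List.mem_cons, List.not_mem_nil, or_false, not_or, List.nodup_nil, and_true, not_false_eq_true] at hnd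
  obtain ⟨⟨n12, n13, n11', n12', n13'⟩, ⟨n23, n21', n22', n23'⟩, ⟨n31', n32', n33'⟩, ⟨n1'2', n1'3'⟩, n2'3'⟩ := hnd
  have hv : ∀ a b d : V, a ∈ U → b ∈ U → d ∈ U → a ∉ B → b ∉ B → d ∉ B → a ≠ b → a ≠ d → b ≠ d →
      - l * (g a + (g b + (g d + ∑ y ∈ B, g y))) ^ 2 +
        (mm n h g l a + (mm n h g l b + (mm n h g l d + ∑ y ∈ B, mm n h g l y))) ≠ 0 := by
    intro a b d ha hb hd ha' hb' hd' hab had hbd
    have i1 : b ∉ insert d B := by
      rw [mem_insert, not_or]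
      exact ⟨hbd, hb'⟩
    have i2 : a ∉ insert b (insert d B) := by
      rw [mem_insert, mem_insert, not_or, not_or]
      exact ⟨hab, had, ha'⟩
    have hsub : insert a (insert b (insert d B)) ⊆ U := by
      intro z hz
      rw [mem_insert, mem_insert, mem_insert] at hz
      rcases hz with rfl | rfl | rfl | hz
      · exact ha
      · exact hb
      · exact hd
      · exact hB hz
    have hcard : (insert a (insert b (insert d B))).card = n := by
      rw [card_insert_of_notMem i2, card_insert_of_notMem i1, card_insert_of_notMem hd']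
      omega
    have h1 := hNZ _ hsub hcard
    rw [form2 hFI hc hcU _ hsub hcard, sum_insert i2, sum_insert i1, sum_insert hd', sum_insert i2, sum_insert i1,
      sum_insert hd'] at h1
    exact h1
  apply fin9 l (g x1 + (g x2 + (g x3 + ∑ y ∈ B, g y)))
    (mm n h g l x1 + (mm n h g l x2 + (mm n h g l x3 + ∑ y ∈ B, mm n h g l y)))
    (mm n h g l x1' - mm n h g l x1) (mm n h g l x2' - mm n h g l x2) (mm n h g l x3' - mm n h g l x3)
    (g x1' - g x1) (g x2' - g x2) (g x3' - g x3) hl (sub_ne_zero.2 g1.symm) (sub_ne_zero.2 g2.symm)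
    (sub_ne_zero.2 g3.symm)
  · exact hv x1 x2 x3 m1 m2 m3 b1 b2 b3 n12 n13 n23
  · exact fun hh => hv x1' x2 x3 m1' m2 m3 b1' b2 b3 (Ne.symm n21') (Ne.symm n31') n23 (by linear_combination hh)
  · exact fun hh => hv x1 x2' x3 m1 m2' m3 b1 b2' b3 n12' n13 (Ne.symm n32') (by linear_combination hh)
  · exact fun hh => hv x1 x2 x3' m1 m2 m3' b1 b2 b3' n12 n13' n23' (by linear_combination hh)
  · exact fun hh => hv x1' x2' x3 m1' m2' m3 b1' b2' b3 n1'2' (Ne.symm n31') (Ne.symm n32') (by linear_combination hh)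
  · exact fun hh => hv x1' x2 x3' m1' m2 m3' b1' b2 b3' (Ne.symm n21') n1'3' n23' (by linear_combination hh)
  · exact fun hh => hv x1 x2' x3' m1 m2' m3' b1 b2' b3' n12' n13' n2'3' (by linear_combination hh)
  · exact fun hh => hv x1' x2' x3' m1' m2' m3' b1' b2' b3' n1'2' n1'3' n2'3' (by linear_combination hh)

theorem exists_third {s : Finset V} (hs : 3 ≤ s.card) (a b : V) : ∃ d ∈ s, d ≠ a ∧ d ≠ b := by
  have h1 : 0 < (s \ {a, b}).card := by
    have h2 := le_card_sdiff ({a, b} : Finset V) s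
    have h3 : ({a, b} : Finset V).card ≤ 2 := card_le_two
    omega
  obtain ⟨d, hd⟩ := card_pos.1 h1
  simp only [mem_sdiff, mem_insert, mem_singleton, not_or] at hd
  exact ⟨d, hd.1, hd.2.1, hd.2.2⟩

theorem f5 : ∀ m m' a a' σ : ZMod 3, a ≠ a' → (m' - m) * (a' - a) = σ → m' - σ * a' = m - σ * a := by decide +kernel

theorem f6 : ∀ k a b w t : ZMod 3, a ≠ k → b ≠ k → (k + (k + w) = t) ∨ (a + (k + w) = t) ∨ (k + (b + w) = t) ∨
    (a + (b + w) = t) := by decide +kernel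

theorem f7 : ∀ p a b k l : ZMod 3, (a = k ∨ b = k) →
    l * a * b = l * k * a + l * k ^ 2 + (l * k * b + l * k ^ 2) := by decide +kernel

theorem f8 : ∀ n : ZMod 3, n * (n - 1) = 0 → n = 0 ∨ n = 1 := by decide

/-- the contradiction if there are three elements with `g = k` and three with `g ≠ k` -/
theorem contra (hFI : S_FI) (hc : IsSym c) (hcU : ∀ x ∈ U, ∀ y ∈ U, x ≠ y → c x y = h x + h y + l * g x * g y)
    (hn : 4 ≤ n) (hU : U.card = n + 3) (hn1 : (n : ZMod 3) * ((n : ZMod 3) - 1) = 0) (hl : l ≠ 0)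
    (hNZ : ∀ s : Finset V, s ⊆ U → s.card = n → F c s ≠ 0) (k : ZMod 3)
    (hK : 3 ≤ (U.filter fun y => g y = k).card) (hL : 3 ≤ (U.filter fun y => g y ≠ k).card) : False := by
  obtain ⟨K, hKdef⟩ : ∃ K, K = U.filter fun y => g y = k := ⟨_, rfl⟩
  obtain ⟨L, hLdef⟩ : ∃ L, L = U.filter fun y => g y ≠ k := ⟨_, rfl⟩
  rw [← hKdef] at hK
  rw [← hLdef] at hL
  have hKm : ∀ v, v ∈ K ↔ v ∈ U ∧ g v = k := fun v => by rw [hKdef, mem_filter]
  have hLm : ∀ v, v ∈ L ↔ v ∈ U ∧ g v ≠ k := fun v => by rw [hLdef, mem_filter]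
  have hKL : ∀ v ∈ K, ∀ u ∈ L, v ≠ u := by
    rintro v hv u hu rfl
    exact ((hLm v).1 hu).2 ((hKm v).1 hv).2
  have hgKL : ∀ v ∈ K, ∀ u ∈ L, g v ≠ g u := by
    intro v hv u hu hh
    exact ((hLm u).1 hu).2 (hh ▸ ((hKm v).1 hv).2)
  have s1 : ∀ v ∈ K, ∀ v' ∈ K, ∀ u ∈ L, ∀ u' ∈ L, v ≠ v' → u ≠ u' → sl n h g l v u = sl n h g l v' u' := by
    intro v hv v' hv' u hu u' hu' hvv huu
    obtain ⟨v'', hv'', h1, h2⟩ := exists_third hK v v'
    obtain ⟨u'', hu'', h3, h4⟩ := exists_third hL u u'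
    refine (tool hFI hc hcU hU hl hNZ ((hKm v).1 hv).1 ((hKm v').1 hv').1 ((hKm v'').1 hv'').1 ((hLm u).1 hu).1
      ((hLm u').1 hu').1 ((hLm u'').1 hu'').1 ?_ (hgKL v hv u hu) (hgKL v' hv' u' hu') (hgKL v'' hv'' u'' hu'')).1
    simp only [List.nodup_cons, List.mem_cons, List.not_mem_nil, or_false, not_or, List.nodup_nil, and_true, not_false_eq_true]
    exact ⟨⟨hvv, h1.symm, hKL v hv u hu, hKL v hv u' hu', hKL v hv u'' hu''⟩, ⟨h2.symm, hKL v' hv' u hu, hKL v' hv' u' hu',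
      hKL v' hv' u'' hu''⟩, ⟨hKL v'' hv'' u hu, hKL v'' hv'' u' hu', hKL v'' hv'' u'' hu''⟩, ⟨huu, h3.symm⟩, h4.symm⟩
  have s2 : ∀ v ∈ K, ∀ v' ∈ K, ∀ u ∈ L, sl n h g l v u = sl n h g l v' u := by
    intro v hv v' hv' u hu
    obtain ⟨v'', hv'', h1, h2⟩ := exists_third hK v v'
    obtain ⟨u', hu', h3, -⟩ := exists_third hL u u
    rw [s1 v hv v'' hv'' u hu u' hu' h1.symm h3.symm, s1 v' hv' v'' hv'' u hu u' hu' h2.symm h3.symm]
  have s3 : ∀ v ∈ K, ∀ u ∈ L, ∀ u' ∈ L, sl n h g l v u = sl n h g l v u' := by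
    intro v hv u hu u' hu'
    obtain ⟨v', hv', h1, -⟩ := exists_third hK v v
    obtain ⟨u'', hu'', h3, h4⟩ := exists_third hL u u'
    rw [s1 v hv v' hv' u hu u'' hu'' h1.symm h3.symm, s1 v hv v' hv' u' hu' u'' hu'' h1.symm h4.symm]
  obtain ⟨v1, hv1, v2, hv2, v3, hv3, hv12, hv13, hv23⟩ := Finset.two_lt_card.1 hK
  obtain ⟨u1, hu1, u2, hu2, u3, hu3, hu12, hu13, hu23⟩ := Finset.two_lt_card.1 hL
  obtain ⟨σ, hσ⟩ : ∃ σ, σ = sl n h g l v1 u1 := ⟨_, rfl⟩
  have s4 : ∀ v ∈ K, ∀ u ∈ L, sl n h g l v u = σ := by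
    intro v hv u hu
    rw [hσ, s2 v hv v1 hv1 u hu, s3 v1 hv1 u hu u1 hu1]
  have s5 : ∀ v ∈ K, ∀ u ∈ L, mm n h g l u - σ * g u = mm n h g l v - σ * g v := by
    intro v hv u hu
    exact f5 _ _ _ _ _ (hgKL v hv u hu) (s4 v hv u hu)
  obtain ⟨τ, hτ⟩ : ∃ τ, τ = mm n h g l v1 - σ * g v1 := ⟨_, rfl⟩
  have s6 : ∀ y ∈ U, mm n h g l y = σ * g y + τ := by
    intro y hy
    by_cases hk : g y = k
    · have h1 := s5 y ((hKm y).2 ⟨hy, hk⟩) u1 hu1
      have h2 := s5 v1 hv1 u1 hu1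
      rw [hτ]
      linear_combination h2 - h1
    · have h1 := s5 v1 hv1 y ((hLm y).2 ⟨hy, hk⟩)
      rw [hτ]
      linear_combination h1
  -- all sums occur
  have s7 : ∀ t : ZMod 3, ∃ s : Finset V, s ⊆ U ∧ s.card = n ∧ ∑ y ∈ s, g y = t := by
    intro t
    obtain ⟨B, hB, hBc⟩ := Finset.exists_subset_card_eq (show n - 2 ≤ (U \ {v1, v2, u1, u2}).card by
      have h1 := le_card_sdiff ({v1, v2, u1, u2} : Finset V) U
      have h2 : ({v1, v2, u1, u2} : Finset V).card ≤ 4 := card_le_four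
      omega)
    have hBU : B ⊆ U := fun y hy => (mem_sdiff.1 (hB hy)).1
    have hBn : ∀ z ∈ ({v1, v2, u1, u2} : Finset V), z ∉ B := fun z hz hzB => (mem_sdiff.1 (hB hzB)).2 hz
    have key : ∀ a b : V, a ∈ U → b ∈ U → a ∉ B → b ∉ B → a ≠ b → g a + (g b + ∑ y ∈ B, g y) = t →
        ∃ s : Finset V, s ⊆ U ∧ s.card = n ∧ ∑ y ∈ s, g y = t := by
      intro a b ha hb haB hbB hab hh
      have i1 : a ∉ insert b B := by
        rw [mem_insert, not_or]
        exact ⟨hab, haB⟩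
      refine ⟨insert a (insert b B), ?_, ?_, ?_⟩
      · intro z hz
        rw [mem_insert, mem_insert] at hz
        rcases hz with rfl | rfl | hz
        · exact ha
        · exact hb
        · exact hBU hz
      · rw [card_insert_of_notMem i1, card_insert_of_notMem hbB]
        omega
      · rw [sum_insert i1, sum_insert hbB, hh]
    have mv1 := ((hKm v1).1 hv1)
    have mv2 := ((hKm v2).1 hv2)
    have mu1 := ((hLm u1).1 hu1)
    have mu2 := ((hLm u2).1 hu2)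
    have bv1 := hBn v1 (by simp)
    have bv2 := hBn v2 (by simp)
    have bu1 := hBn u1 (by simp)
    have bu2 := hBn u2 (by simp)
    rcases f6 k (g u1) (g u2) (∑ y ∈ B, g y) t mu1.2 mu2.2 with hh | hh | hh | hh
    · exact key v1 v2 mv1.1 mv2.1 bv1 bv2 hv12 (by rw [mv1.2, mv2.2]; exact hh)
    · exact key u1 v2 mu1.1 mv2.1 bu1 bv2 (hKL v2 hv2 u1 hu1).symm (by rw [mv2.2]; exact hh)
    · exact key v1 u2 mv1.1 mu2.1 bv1 bu2 (hKL v1 hv1 u2 hu2) (by rw [mv1.2]; exact hh)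
    · exact key u1 u2 mu1.1 mu2.1 bu1 bu2 hu12 hh
  have s8 : ∀ s : Finset V, s ⊆ U → s.card = n →
      F c s = - l * (∑ y ∈ s, g y) ^ 2 + (σ * ∑ y ∈ s, g y + n * τ) := by
    intro s hs hsn
    rw [form2 hFI hc hcU s hs hsn, sum_congr rfl fun y hy => s6 y (hs hy), sum_add_distrib, ← mul_sum, sum_const, hsn,
      nsmul_eq_mul]
  rcases f8 _ hn1 with h0 | h0
  · obtain ⟨s, hs, hsn, hst⟩ := s7 0
    apply hNZ s hs hsn
    rw [s8 s hs hsn, hst, h0]
    ring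
  · obtain ⟨s, hs, hsn, hst⟩ := s7 (g v1)
    apply hNZ s hs hsn
    rw [s8 s hs hsn, hst, h0]
    have h1 := s6 v1 ((hKm v1).1 hv1).1
    unfold mm at h1
    rw [h0] at h1
    linear_combination -h1

end

theorem kr : S_FI → S_KR := by
  intro hFI V _ c n U h g l hc hn hU hn1 hl hcU
  by_contra hcon
  rw [not_or] at hcon
  obtain ⟨hA, hB⟩ := hcon
  have hNZ : ∀ s : Finset V, s ⊆ U → s.card = n → F c s ≠ 0 := fun s hs hsn hF => hA ⟨s, hs, hsn, hF⟩
  -- a frequent value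
  obtain ⟨k, -, hk⟩ := Finset.exists_lt_card_fiber_of_mul_lt_card_of_maps_to (s := U) (t := (univ : Finset (ZMod 3)))
    (f := g) (n := 2) (fun _ _ => mem_univ _) (by rw [card_univ, ZMod.card]; omega)
  have hK : 3 ≤ (U.filter fun y => g y = k).card := hk
  by_cases hL : 3 ≤ (U.filter fun y => g y ≠ k).card
  · exact contra hFI hc hcU hn hU hn1 hl hNZ k hK hL
  · -- at most two exceptions
    apply hB
    have hL2 : (U.filter fun y => g y ≠ k).card ≤ 2 := by omega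
    obtain ⟨p, hp, hpE⟩ : ∃ p ∈ U, ((U.filter fun y => g y ≠ k).erase p).card ≤ 1 := by
      rcases (U.filter fun y => g y ≠ k).eq_empty_or_nonempty with h0 | ⟨p, hp⟩
      · obtain ⟨p, hp⟩ : U.Nonempty := by
          rw [← card_pos]
          omega
        refine ⟨p, hp, ?_⟩
        rw [h0]
        simp
      · refine ⟨p, (mem_filter.1 hp).1, ?_⟩
        rw [card_erase_of_mem hp]
        omega
    refine ⟨p, hp, fun x => h x + l * k * g x + l * k ^ 2, ?_⟩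
    intro x hx y hy hxy
    rw [mem_erase] at hx hy
    rw [hcU x hx.2 y hy.2 hxy]
    have h1 : g x = k ∨ g y = k := by
      by_contra hcon
      rw [not_or] at hcon
      have hx' : x ∈ (U.filter fun y => g y ≠ k).erase p := mem_erase.2 ⟨hx.1, mem_filter.2 ⟨hx.2, hcon.1⟩⟩
      have hy' : y ∈ (U.filter fun y => g y ≠ k).erase p := mem_erase.2 ⟨hy.1, mem_filter.2 ⟨hy.2, hcon.2⟩⟩
      exact hxy (Finset.card_le_one.1 hpE x hx' y hy')
    have h2 := f7 0 (g x) (g y) k l h1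
    linear_combination h2

end Pool.Agent.Q222.ZR.KR

namespace Pool.Agent.Q222.ZR

open Pool.Agent.Q54.ZR

theorem kr : S_FI → S_KR := KR.kr

end Pool.Agent.Q222.ZR
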