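import Pool.Agent.Q54.ZR.Stm

/-!
Project ZR (helper54), job KTOP (helper222).
-/

set_option autoImplicit false

namespace Pool.Agent.Q222.ZR.KTOP

open Pool.Agent.Q54.ZR Finset

theorem sq_one : ∀ b : ZMod 3, b ≠ 0 → b * b = 1 := by decide

theorem m2 : (-2 : ZMod 3) = 1 := by decide

theorem mul_ne : ∀ b σ : ZMod 3, b ≠ 0 → σ ≠ 0 → b * σ ≠ 0 := by decide

theorem deg_top (n : ℕ) (h : (n : ZMod 3) * ((n : ZMod 3) - 1) = 0) : Deg3 (⊤ : SimpleGraph (Fin n)) := by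
  unfold Deg3
  have h1 : ∀ a : Fin n, ∑ b : Fin n, (if (⊤ : SimpleGraph (Fin n)).Adj a b then (1 : ZMod 3) else 0) = (n : ZMod 3) - 1 := by
    intro a
    have h2 : ∀ b : Fin n, (if (⊤ : SimpleGraph (Fin n)).Adj a b then (1 : ZMod 3) else 0) =
        1 - (if a = b then (1 : ZMod 3) else 0) := by
      intro b
      by_cases hab : a = b
      · simp [hab]
      · simp [hab]
    rw [Finset.sum_congr rfl fun b _ => h2 b, Finset.sum_sub_distrib, Finset.sum_ite_eq, if_pos (mem_univ a)]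
    simp
  rw [Finset.sum_congr rfl fun a _ => h1 a]
  simp only [sum_const, card_univ, Fintype.card_fin, nsmul_eq_mul]
  exact h

theorem ktop : S_ADD → S_EGZ → S_FT → S_HAF → S_K2 → S_KC → S_KR → S_KTOP := by
  intro hADD hEGZ hFT hHAF hK2 hKC hKR V _ _ c n hc hn hV hn1
  by_contra hcon
  have hNZ : ∀ s : Finset V, s.card = n → F c s ≠ 0 := fun s hs hF => hcon ⟨s, hs, hF⟩
  have hNZF : NZF c univ n := fun s _ hs => hNZ s hs
  -- no large additive set
  have hstar : ∀ (W : Finset V) (h : V → ZMod 3), AddOn c W h → W.card < n + 2 := by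
    intro W h hW
    by_contra hlt
    obtain ⟨φ, hφ, -, hS⟩ := hEGZ (Fin n) V (⊤ : SimpleGraph (Fin n)) c W h hc (deg_top n hn1) hW (by
      rw [Fintype.card_fin]
      omega)
    rw [hFT (Fin n) V c φ hφ] at hS
    exact hNZ _ (by rw [card_image_of_injective _ hφ, card_univ, Fintype.card_fin]) hS
  have hnf : ¬ Flat c univ := by
    intro hf
    obtain ⟨h, hh⟩ := hADD V c univ hc (by rw [card_univ, hV]; omega) hf
    have := hstar univ h hh
    rw [card_univ, hV] at this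
    omega
  unfold Flat at hnf
  push Not at hnf
  obtain ⟨x1, -, x1', -, x2, -, x2', -, hnd, hb⟩ := hnf
  obtain ⟨b, hbdef⟩ : ∃ b, b = br c x1 x1' x2 x2' := ⟨_, rfl⟩
  have hb0 : b ≠ 0 := hbdef ▸ hb
  have hbb := sq_one b hb0
  obtain ⟨U, hUdef⟩ : ∃ U, U = (univ : Finset V) \ {x1, x1', x2, x2'} := ⟨_, rfl⟩
  have hUc : U.card = n + 3 := by
    have h1 : ({x1, x1', x2, x2'} : Finset V).card = 4 := by
      have h2 : ({x1, x1', x2, x2'} : Finset V) = [x1, x1', x2, x2'].toFinset := by simp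
      rw [h2, List.toFinset_card_of_nodup hnd]
      rfl
    rw [hUdef, card_sdiff_of_subset (subset_univ _), h1, card_univ, hV]
    omega
  have hUm : ∀ y, y ∈ U ↔ y ≠ x1 ∧ y ≠ x1' ∧ y ≠ x2 ∧ y ≠ x2' := by
    intro y
    rw [hUdef]
    simp
  obtain ⟨g1, hg1⟩ : ∃ g1 : V → ZMod 3, ∀ y, g1 y = c x1' y - c x1 y := ⟨_, fun _ => rfl⟩
  obtain ⟨g2, hg2⟩ : ∃ g2 : V → ZMod 3, ∀ y, g2 y = c x2' y - c x2 y := ⟨_, fun _ => rfl⟩
  -- the colouring `c'`
  obtain ⟨c', hc'⟩ : ∃ c' : V → V → ZMod 3, ∀ y z, c' y z = c y z + b * (g1 y * g2 z + g1 z * g2 y) := ⟨_, fun _ _ => rfl⟩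
  have hc'sym : IsSym c' := by
    intro y z
    rw [hc', hc', hc y z]
    ring
  have hflat : Flat c' U := by
    intro y hy y' hy' z hz z' hz' hnd2
    have hnd8 : [x1, x1', x2, x2', y, y', z, z'].Nodup := by
      rw [hUm] at hy hy' hz hz'
      simp only [List.nodup_cons, List.mem_cons, List.not_mem_nil, or_false, not_or, List.nodup_nil, and_true,
        not_false_eq_true] at hnd hnd2 ⊢
      obtain ⟨a1, a2, a3⟩ := hnd
      obtain ⟨b1, b2, b3⟩ := hnd2
      exact ⟨⟨a1.1, a1.2.1, a1.2.2, Ne.symm hy.1, Ne.symm hy'.1, Ne.symm hz.1, Ne.symm hz'.1⟩,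
        ⟨a2.1, a2.2, Ne.symm hy.2.1, Ne.symm hy'.2.1, Ne.symm hz.2.1, Ne.symm hz'.2.1⟩,
        ⟨a3, Ne.symm hy.2.2.1, Ne.symm hy'.2.2.1, Ne.symm hz.2.2.1, Ne.symm hz'.2.2.1⟩,
        ⟨Ne.symm hy.2.2.2, Ne.symm hy'.2.2.2, Ne.symm hz.2.2.2, Ne.symm hz'.2.2.2⟩,
        ⟨b1.1, b1.2.1, b1.2.2⟩, ⟨b2.1, b2.2⟩, b3⟩
    have hh := hHAF V c n hc hn (by omega) hNZF x1 x1' x2 x2' y y' z z' hnd8
    rw [← hbdef] at hh
    unfold br at hh ⊢
    simp only [hc', hg1, hg2]
    linear_combination b * hh - (c y z - c y' z - c y z' + c y' z') * hbb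
  obtain ⟨h0, hh0⟩ := hADD V c' U hc'sym (by omega) hflat
  have hcU : ∀ y ∈ U, ∀ z ∈ U, y ≠ z → c y z = h0 y + h0 z - b * (g1 y * g2 z + g1 z * g2 y) := by
    intro y hy z hz hyz
    have h1 := hh0 y hy z hz hyz
    rw [hc'] at h1
    linear_combination h1
  -- the classification
  have hhyp : ∀ B : Finset V, B ⊆ U → B.card + 2 = n →
      ((c x1' x2 - c x1 x2 - b) + ∑ y ∈ B, g1 y = 0 ↔ (c x1 x2' - c x1 x2 - b) + ∑ y ∈ B, g2 y = 0) := by
    intro B hB hBn
    have h1 := hK2 V c n hc hNZF x1 x1' x2 x2' hnd hb B hBn (fun h => ((hUm _).1 (hB h)).1 rfl)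
      (fun h => ((hUm _).1 (hB h)).2.1 rfl) (fun h => ((hUm _).1 (hB h)).2.2.1 rfl)
      (fun h => ((hUm _).1 (hB h)).2.2.2 rfl)
    rw [← hbdef] at h1
    simp only [hg1, hg2]
    constructor
    · intro h2
      have h3 := h1.1 (by linear_combination h2)
      linear_combination h3
    · intro h2
      have h3 := h1.2 (by linear_combination h2)
      linear_combination h3
  have herase : ∀ p ∈ U, (U.erase p).card = n + 2 := by
    intro p hp
    rw [card_erase_of_mem hp, hUc]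
    omega
  rcases hKC V n U g1 g2 _ _ hn hUc hhyp with ⟨p, hp, q, hq | hq⟩ | ⟨σ, τ, hσ, hστ⟩
  · have h1 := hstar (U.erase p) (fun y => h0 y - b * q * g2 y) (by
      intro y hy z hz hyz
      rw [hcU y (mem_of_mem_erase hy) z (mem_of_mem_erase hz) hyz, hq y hy, hq z hz]
      ring)
    rw [herase p hp] at h1
    omega
  · have h1 := hstar (U.erase p) (fun y => h0 y - b * q * g1 y) (by
      intro y hy z hz hyz
      rw [hcU y (mem_of_mem_erase hy) z (mem_of_mem_erase hz) hyz, hq y hy, hq z hz]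
      ring)
    rw [herase p hp] at h1
    omega
  · rcases hKR V c n U (fun y => h0 y - b * τ * g1 y) g1 (b * σ) hc hn hUc hn1 (mul_ne b σ hb0 hσ) (by
      intro y hy z hz hyz
      rw [hcU y hy z hz hyz, hστ y hy, hστ z hz]
      have h2 : b * σ * g1 y * g1 z = -2 * (b * σ * g1 y * g1 z) := by rw [m2, one_mul]
      show _ = h0 y - b * τ * g1 y + (h0 z - b * τ * g1 z) + b * σ * g1 y * g1 z
      rw [h2]
      ring) with ⟨s, -, hs, hF⟩ | ⟨p, hp, h', hh'⟩
    · exact hNZ s hs hF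
    · have h1 := hstar (U.erase p) h' hh'
      rw [herase p hp] at h1
      omega

end Pool.Agent.Q222.ZR.KTOP

namespace Pool.Agent.Q222.ZR

open Pool.Agent.Q54.ZR

theorem ktop : S_ADD → S_EGZ → S_FT → S_HAF → S_K2 → S_KC → S_KR → S_KTOP := KTOP.ktop

end Pool.Agent.Q222.ZR
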